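import Pool.Agent.Helper95.Slp.Defs

/-!
# Completeness of the translation of straight-line programs
-/

open scoped InnerProductSpace

namespace Pool.Agent.Helper95.Slp

open Pool.Agent.Helper92.Theta

/-- the first components of the rows -/
def wv (v su : ℕ → ℝ) (p : ℕ) : ℝ :=
  if p = 0 then 1 else if (p - 1) % 4 = 0 then v ((p - 1) / 4)
    else if (p - 1) % 4 = 1 then su ((p - 1) / 4) else 0

/-- the second components of the rows -/
def zv (s : ℝ) (sa sb : ℕ → ℝ) (p : ℕ) : ℝ :=
  if p = 2 then s else if p ≠ 0 ∧ (p - 1) % 4 = 2 then sa ((p - 1) / 4)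
    else if p ≠ 0 ∧ (p - 1) % 4 = 3 then sb ((p - 1) / 4) else 0

/-- the matrix -/
def yv (v su : ℕ → ℝ) (s : ℝ) (sa sb : ℕ → ℝ) (p q : ℕ) : ℝ :=
  wv v su p * wv v su q + if (p - 1) / 4 = (q - 1) / 4 then zv s sa sb p * zv s sa sb q else 0

section

variable (v su : ℕ → ℝ) (s : ℝ) (sa sb : ℕ → ℝ)

lemma wv_zero : wv v su 0 = 1 := by simp [wv]

lemma wv_tI (c : ℕ) : wv v su (tI c) = v c := by
  unfold wv tI
  rw [if_neg (by omega), if_pos (by omega)]
  congr 1
  omega

lemma wv_uI (c : ℕ) : wv v su (uI c) = su c := by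
  unfold wv uI
  rw [if_neg (by omega), if_neg (by omega), if_pos (by omega)]
  congr 1
  omega

lemma wv_aI (c : ℕ) : wv v su (aI c) = 0 := by
  unfold wv aI
  rw [if_neg (by omega), if_neg (by omega), if_neg (by omega)]

lemma wv_bI (c : ℕ) : wv v su (bI c) = 0 := by
  unfold wv bI
  rw [if_neg (by omega), if_neg (by omega), if_neg (by omega)]

lemma zv_zero : zv s sa sb 0 = 0 := by simp [zv]

lemma zv_two : zv s sa sb 2 = s := by simp [zv]

lemma zv_tI (c : ℕ) : zv s sa sb (tI c) = 0 := by
  unfold zv tI
  rw [if_neg (by omega), if_neg (by omega), if_neg (by omega)]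

lemma zv_uI (c : ℕ) : zv s sa sb (uI (c + 1)) = 0 := by
  unfold zv uI
  rw [if_neg (by omega), if_neg (by omega), if_neg (by omega)]

lemma zv_aI (c : ℕ) : zv s sa sb (aI c) = sa c := by
  unfold zv aI
  rw [if_neg (by omega), if_pos (by omega)]
  congr 1
  omega

lemma zv_bI (c : ℕ) : zv s sa sb (bI c) = sb c := by
  unfold zv bI
  rw [if_neg (by omega), if_neg (by omega), if_pos (by omega)]
  congr 1
  omega

/-- the matrix is positive semidefinite -/
lemma yv_psd (N : ℕ) :
    (Matrix.of fun i j : Fin N => yv v su s sa sb i j).PosSemidef := by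
  classical
  let x : Fin N → EuclideanSpace ℝ (Option (Fin N)) := fun i => WithLp.toLp 2 fun o => match o with
    | none => wv v su i
    | some m => if ((i : ℕ) - 1) / 4 = m then zv s sa sb i else 0
  have h := gram_posSemidef x
  have e : (Matrix.of fun i j : Fin N => yv v su s sa sb i j) =
      (Matrix.of fun i j => ⟪x i, x j⟫_ℝ : Matrix (Fin N) (Fin N) ℝ) := by
    ext i j
    rw [Matrix.of_apply, Matrix.of_apply, PiLp.inner_apply, Fintype.sum_option]
    simp only [x, RCLike.inner_apply, conj_trivial, yv]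
    rw [mul_comm (wv v su j)]
    congr 1
    by_cases hij : ((i : ℕ) - 1) / 4 = ((j : ℕ) - 1) / 4
    · rw [if_pos hij]
      have hm : ((i : ℕ) - 1) / 4 < N := by have := i.2; omega
      rw [Finset.sum_eq_single ⟨_, hm⟩]
      · simp only [if_true, ← hij]
        ring
      · intro m _ hm'
        have h2 : ¬ ((i : ℕ) - 1) / 4 = m := fun h1 => hm' (Fin.ext h1.symm)
        have h3 : ¬ ((j : ℕ) - 1) / 4 = m := by rw [← hij]; exact h2
        rw [if_neg h2, if_neg h3, mul_zero]
      · intro h1; exact absurd (Finset.mem_univ _) h1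
    · rw [if_neg hij]
      symm
      refine Finset.sum_eq_zero fun m _ => ?_
      by_cases h1 : ((i : ℕ) - 1) / 4 = m
      · have h2 : ¬ ((j : ℕ) - 1) / 4 = m := fun h3 => hij (h1.trans h3.symm)
        rw [if_neg h2, zero_mul]
      · rw [if_neg h1, mul_zero]
  rw [e]
  exact h

end

/-- The conditions on the auxiliary numbers. -/
structure Aux (op : ℕ) (vi vj vc su sa sb : ℝ) : Prop where
  u3 : op = 3 → su = vj * vc
  u4 : op = 4 → su = vc * vc
  a4 : op = 4 → sa * sb = 1
  b4 : op = 4 → sb * sb = vj * vj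
  n5 : op = 5 → sb * sb = vi * vi
  m5 : op = 5 → sa * sb = vc
  a5 : 6 ≤ op → sa * sa = vc
  b5 : 6 ≤ op → sa * sb = vi
  c5 : 6 ≤ op → sb * sb = vi * vc

lemma exists_aux (op : ℕ) (z vi vj vc : ℝ) (h : Res op z vi vj vc) :
    ∃ su sa sb : ℝ, Aux op vi vj vc su sa sb := by
  match op, h with
  | 0, h => exact ⟨0, 0, 0, by omega, by omega, by omega, by omega, by omega, by omega, by omega,
      by omega, by omega⟩
  | 1, h => exact ⟨0, 0, 0, by omega, by omega, by omega, by omega, by omega, by omega, by omega,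
      by omega, by omega⟩
  | 2, h => exact ⟨0, 0, 0, by omega, by omega, by omega, by omega, by omega, by omega, by omega,
      by omega, by omega⟩
  | 3, h => exact ⟨vj * vc, 0, 0, fun _ => rfl, by omega, by omega, by omega, by omega, by omega,
      by omega, by omega, by omega⟩
  | 4, h =>
    obtain ⟨h1, h2⟩ := h
    exact ⟨vc * vc, vj⁻¹, vj, by omega, fun _ => rfl, fun _ => inv_mul_cancel₀ h1, fun _ => rfl,
      by omega, by omega, by omega, by omega, by omega⟩
  | 5, h =>
    obtain ⟨h1, h2⟩ : (vi = 0 → vc = 0) ∧ (vi ≠ 0 → vc = 1) := h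
    refine ⟨0, vi⁻¹, vi, by omega, by omega, by omega, by omega, fun _ => rfl, fun _ => ?_,
      by omega, by omega, by omega⟩
    by_cases hv : vi = 0
    · rw [h1 hv, hv, mul_zero]
    · rw [h2 hv, inv_mul_cancel₀ hv]
  | n + 6, h =>
    obtain ⟨h1, h2⟩ : 0 ≤ vc ∧ vc * vc = vi := h
    have h3 := Real.mul_self_sqrt h1
    refine ⟨0, √vc, vc * √vc, by omega, by omega, by omega, by omega, by omega, by omega,
      fun _ => h3, fun _ => ?_, fun _ => ?_⟩
    · calc √vc * (vc * √vc) = vc * (√vc * √vc) := by ring
        _ = vi := by rw [h3, h2]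
    · calc vc * √vc * (vc * √vc) = vc * vc * (√vc * √vc) := by ring
        _ = vi * vc := by rw [h3, h2]

theorem gate_complete {N k : ℕ} (g : Gate) (v su : ℕ → ℝ) (s : ℝ) (sa sb : ℕ → ℝ)
    (hN : bI (k + 1) < N)
    (h : Res g.1 (ival g.2.2.2) (v (idx k g.2.1)) (v (idx k g.2.2.1)) (v (k + 1)))
    (hA : Aux g.1 (v (idx k g.2.1)) (v (idx k g.2.2.1)) (v (k + 1)) (su (k + 1)) (sa (k + 1))
      (sb (k + 1))) :
    ∀ a ∈ gateE N k g, Holds N (yv v su s sa sb) a := by
  obtain ⟨op, i, j, z⟩ := g
  simp only at h hA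
  have hik : idx k i ≤ k := by unfold idx; split_ifs <;> omega
  have hjk : idx k j ≤ k := by unfold idx; split_ifs <;> omega
  unfold gateE
  simp only
  have w0 := wv_zero v su
  have wI := wv_tI v su (idx k i)
  have wJ := wv_tI v su (idx k j)
  have wT := wv_tI v su (k + 1)
  have wU := wv_uI v su (k + 1)
  have wA := wv_aI v su (k + 1)
  have wB := wv_bI v su (k + 1)
  have z0 := zv_zero s sa sb
  have zI := zv_tI s sa sb (idx k i)
  have zJ := zv_tI s sa sb (idx k j)
  have zT := zv_tI s sa sb (k + 1)
  have zU := zv_uI s sa sb k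
  have zA := zv_aI s sa sb (k + 1)
  have zB := zv_bI s sa sb (k + 1)
  unfold bI at hN
  generalize hI : tI (idx k i) = I at *
  generalize hJ : tI (idx k j) = J at *
  generalize hT : tI (k + 1) = T at *
  generalize hU : uI (k + 1) = U at *
  generalize hA' : aI (k + 1) = A at *
  generalize hB : bI (k + 1) = B at *
  unfold tI at hI hJ hT
  unfold uI at hU
  unfold aI at hA'
  unfold bI at hB
  have cAB : (A - 1) / 4 = (B - 1) / 4 := by omega
  match op, h, hA with
  | 0, h, hA =>
    simp only [gateL, if_true, List.forall_mem_cons, List.not_mem_nil, false_implies,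
      implies_true, and_true]
    rw [holds_eq1 (by omega) (by omega), holds_eq2 (by omega) (by omega) (by omega) (by omega)
      (by omega), ival_bneg]
    have h' : v (k + 1) = ival z := h
    simp only [yv, w0, wT, z0, zT, mul_zero, zero_mul, ite_self, add_zero, one_mul, h']
    refine ⟨trivial, ?_⟩
    push_cast
    ring
  | 1, h, hA =>
    simp only [gateL, one_ne_zero, if_true, if_false, List.forall_mem_cons, List.not_mem_nil,
      false_implies, implies_true, and_true]
    rw [holds_eq3 (by omega) (by omega) (by omega) (by omega) (by omega) (by omega) (by omega)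
      (by omega) (by omega), holds_eq3 (by omega) (by omega) (by omega) (by omega) (by omega)
      (by omega) (by omega) (by omega) (by omega), ival_mone]
    have h' : v (k + 1) = v (idx k i) + v (idx k j) := h
    simp only [yv, w0, wT, wI, wJ, z0, zT, zI, zJ, mul_zero, zero_mul, ite_self, add_zero,
      one_mul, mul_one, h']
    push_cast
    refine ⟨?_, ?_⟩ <;> ring
  | 2, h, hA =>
    simp only [gateL, OfNat.ofNat_ne_zero, OfNat.ofNat_ne_one, if_true, if_false,
      List.forall_mem_cons, List.not_mem_nil, false_implies, implies_true, and_true]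
    rw [holds_eq3 (by omega) (by omega) (by omega) (by omega) (by omega) (by omega) (by omega)
      (by omega) (by omega), holds_eq3 (by omega) (by omega) (by omega) (by omega) (by omega)
      (by omega) (by omega) (by omega) (by omega), ival_one]
    have h' : v (k + 1) = v (idx k i) - v (idx k j) := h
    simp only [yv, w0, wT, wI, wJ, z0, zT, zI, zJ, mul_zero, zero_mul, ite_self, add_zero,
      one_mul, mul_one, h']
    push_cast
    refine ⟨?_, ?_⟩ <;> ring
  | 3, h, hA =>
    simp only [gateL, OfNat.ofNat_ne_zero, OfNat.ofNat_ne_one, if_true, if_false,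
      List.forall_mem_cons, List.not_mem_nil, false_implies, implies_true, and_true,
      Nat.reduceEqDiff]
    rw [holds_eq2 (by omega) (by omega) (by omega) (by omega) (by omega),
      holds_eq2 (by omega) (by omega) (by omega) (by omega) (by omega),
      holds_eq2 (by omega) (by omega) (by omega) (by omega) (by omega), ival_mone]
    have h' : v (k + 1) = v (idx k i) * v (idx k j) := h
    have hu := hA.u3 rfl
    simp only [yv, w0, wT, wI, wJ, wU, z0, zT, zI, zJ, zU, mul_zero, zero_mul, ite_self, add_zero,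
      one_mul, mul_one, hu, h']
    push_cast
    refine ⟨?_, ?_, ?_⟩ <;> ring
  | 4, h, hA =>
    simp only [gateL, OfNat.ofNat_ne_zero, OfNat.ofNat_ne_one, if_true, if_false,
      List.forall_mem_cons, List.not_mem_nil, false_implies, implies_true, and_true,
      Nat.reduceEqDiff]
    rw [holds_eq2 (by omega) (by omega) (by omega) (by omega) (by omega),
      holds_eq2 (by omega) (by omega) (by omega) (by omega) (by omega),
      holds_eq2 (by omega) (by omega) (by omega) (by omega) (by omega),
      holds_eq1 (by omega) (by omega),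
      holds_eq2 (by omega) (by omega) (by omega) (by omega) (by omega), ival_mone, ival_one]
    obtain ⟨h1, h2⟩ : v (idx k j) ≠ 0 ∧ v (k + 1) = v (idx k i) / v (idx k j) := h
    have h3 : v (idx k i) = v (idx k j) * v (k + 1) := by
      rw [h2]; field_simp
    have hu := hA.u4 rfl
    have ha := hA.a4 rfl
    have hb := hA.b4 rfl
    simp only [yv, w0, wT, wI, wJ, wU, wA, wB, z0, zT, zI, zJ, zU, zA, zB, mul_zero, zero_mul,
      ite_self, add_zero, zero_add, one_mul, mul_one, hu, h3, if_true, cAB, ha, hb]
    push_cast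
    refine ⟨?_, ?_, ?_, ?_, ?_⟩ <;> ring
  | 5, h, hA =>
    simp only [gateL, OfNat.ofNat_ne_zero, OfNat.ofNat_ne_one, if_true, if_false,
      List.forall_mem_cons, List.not_mem_nil, false_implies, implies_true, and_true,
      Nat.reduceEqDiff]
    rw [holds_eq2 (by omega) (by omega) (by omega) (by omega) (by omega),
      holds_eq2 (by omega) (by omega) (by omega) (by omega) (by omega),
      holds_eq2 (by omega) (by omega) (by omega) (by omega) (by omega),
      holds_eq2 (by omega) (by omega) (by omega) (by omega) (by omega), ival_mone]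
    obtain ⟨h1, h2⟩ : (v (idx k i) = 0 → v (k + 1) = 0) ∧ (v (idx k i) ≠ 0 → v (k + 1) = 1) := h
    have hb := hA.n5 rfl
    have ha := hA.m5 rfl
    have h3 : v (idx k i) * v (k + 1) = v (idx k i) := by
      by_cases hv : v (idx k i) = 0
      · rw [hv, zero_mul]
      · rw [h2 hv, mul_one]
    have h4 : v (k + 1) * v (k + 1) = v (k + 1) := by
      by_cases hv : v (idx k i) = 0
      · rw [h1 hv, zero_mul]
      · rw [h2 hv, mul_one]
    simp only [yv, w0, wT, wI, wA, wB, z0, zT, zI, zA, zB, mul_zero, zero_mul,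
      ite_self, add_zero, zero_add, one_mul, mul_one, if_true, cAB, ha, hb, h3, h4]
    push_cast
    refine ⟨?_, ?_, ?_, ?_⟩ <;> ring
  | n + 6, h, hA =>
    have e0 : ¬ (n + 6 = 0) := by omega
    have e1 : ¬ (n + 6 = 1) := by omega
    have e2 : ¬ (n + 6 = 2) := by omega
    have e3 : ¬ (n + 6 = 3) := by omega
    have e4 : ¬ (n + 6 = 4) := by omega
    have e5 : ¬ (n + 6 = 5) := by omega
    simp only [gateL, e0, e1, e2, e3, e4, e5, if_false, List.forall_mem_cons, List.not_mem_nil,
      false_implies, implies_true, and_true]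
    rw [holds_eq2 (by omega) (by omega) (by omega) (by omega) (by omega),
      holds_eq2 (by omega) (by omega) (by omega) (by omega) (by omega),
      holds_eq2 (by omega) (by omega) (by omega) (by omega) (by omega),
      holds_eq2 (by omega) (by omega) (by omega) (by omega) (by omega), ival_mone]
    obtain ⟨h1, h2⟩ : 0 ≤ v (k + 1) ∧ v (k + 1) * v (k + 1) = v (idx k i) := h
    have ha := hA.a5 (by omega)
    have hb := hA.b5 (by omega)
    have hc := hA.c5 (by omega)
    simp only [yv, w0, wT, wI, wA, wB, z0, zT, zI, zA, zB, mul_zero, zero_mul,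
      ite_self, add_zero, zero_add, one_mul, mul_one, if_true, cAB, ha, hb, hc, h2]
    push_cast
    refine ⟨?_, ?_, ?_, ?_⟩ <;> ring

/-- **Completeness.** -/
theorem complete (P : List Gate) (h : P ∈ RealSLP) : sys P ∈ SDPFeas := by
  obtain ⟨v, ⟨hv0, hv⟩, hn⟩ := h
  have hex : ∀ c, ∃ t : ℝ × ℝ × ℝ, ∀ k g, c = k + 1 → P[k]? = some g →
      Aux g.1 (v (idx k g.2.1)) (v (idx k g.2.2.1)) (v (k + 1)) t.1 t.2.1 t.2.2 := by
    intro c
    rcases c with _ | k
    · exact ⟨(0, 0, 0), fun k g h => absurd h (by omega)⟩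
    · rcases hk : P[k]? with _ | g
      · refine ⟨(0, 0, 0), fun k' g h h' => ?_⟩
        obtain rfl : k = k' := by omega
        rw [hk] at h'
        exact absurd h' (by simp)
      · obtain ⟨a, b, c, habc⟩ := exists_aux _ _ _ _ _ (hv k g hk)
        refine ⟨(a, b, c), fun k' g' h h' => ?_⟩
        obtain rfl : k = k' := by omega
        rw [hk, Option.some.injEq] at h'
        subst h'
        exact habc
  choose t ht using hex
  set su : ℕ → ℝ := fun c => if c = 0 then 0 else (t c).1 with hsu
  set sa : ℕ → ℝ := fun c => (t c).2.1 with hsa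
  set sb : ℕ → ℝ := fun c => (t c).2.2 with hsb
  have hs : sz P = 4 * P.length + 5 := rfl
  refine ⟨Matrix.of fun i j => yv v su (√(v P.length)) sa sb i j, yv_psd v su _ sa sb _, ?_⟩
  have key : ∀ a ∈ (sys P).2, Holds (sz P) (yv v su (√(v P.length)) sa sb) a := by
    intro a ha
    rcases List.mem_append.1 ha with ha | ha
    · have e1 : wv v su 1 = 1 := by rw [show (1 : ℕ) = tI 0 from rfl, wv_tI, hv0]
      have e2 : wv v su 2 = 0 := by rw [show (2 : ℕ) = uI 0 from rfl, wv_uI]; simp [hsu]
      have e3 : zv (√(v P.length)) sa sb 1 = 0 := by rw [show (1 : ℕ) = tI 0 from rfl, zv_tI]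
      have hlast : tI P.length < sz P := by unfold tI; omega
      suffices hb : ∀ a ∈ [eq1 (sz P) 0 0 one, eq1 (sz P) 0 1 one, eq1 (sz P) 1 1 one,
          eq2 (sz P) 2 2 0 (tI P.length) mone],
          Holds (sz P) (yv v su (√(v P.length)) sa sb) a from hb a ha
      simp only [List.forall_mem_cons, List.not_mem_nil, false_implies, implies_true, and_true]
      refine ⟨?_, ?_, ?_, ?_⟩
      · rw [holds_eq1 (by omega) (by omega), ival_one]
        simp [yv, wv_zero, zv_zero]
      · rw [holds_eq1 (by omega) (by omega), ival_one]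
        simp [yv, wv_zero, zv_zero, e1]
      · rw [holds_eq1 (by omega) (by omega), ival_one]
        simp [yv, e1, e3]
      · rw [holds_eq2 (by omega) (by omega) (by omega) hlast (by omega), ival_mone]
        simp [yv, wv_zero, zv_zero, e2, zv_two, wv_tI, Real.mul_self_sqrt hn]
    · obtain ⟨k, hk, ha⟩ := List.mem_flatMap.1 ha
      rw [List.mem_range] at hk
      have hg : P[k]? = some P[k] := List.getElem?_eq_getElem hk
      rw [hg, Option.getD_some] at ha
      have hA := ht (k + 1) k P[k] rfl hg
      refine gate_complete P[k] v su _ sa sb (by unfold bI; omega) (hv k _ hg) ?_ a ha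
      simp only [hsu, hsa, hsb, if_neg (Nat.succ_ne_zero k)]
      exact hA
  intro a ha
  have h1 := key a ha
  exact h1

end Pool.Agent.Helper95.Slp
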