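import Pool.Agent.Helper95.Slp.Sound
import Pool.Agent.Helper95.Slp.Comp

/-!
# Real circuits with square roots and sign tests

All operations are total: `x / 0 = 0`, and the square root of a negative number is `0`.
-/

namespace Pool.Agent.Helper95.Slp

open Pool.Agent.Helper92.Theta

/-- The operations of real circuits: constants, `+`, `-`, `*`, `/`, the square root and the test
for positivity. -/
noncomputable def opR : ℕ → ℝ → ℝ → ℝ → ℝ
  | 0, z, _, _ => z
  | 1, _, a, b => a + b
  | 2, _, a, b => a - b
  | 3, _, a, b => a * b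
  | 4, _, a, b => a / b
  | 5, _, a, _ => √a
  | _, _, a, _ => if 0 < a then 1 else 0

lemma idx_le (k i : ℕ) : idx k i ≤ k := by unfold idx; split_ifs <;> omega

lemma idx_eq {k i : ℕ} (h : i ≤ k) : idx k i = i := if_pos h

/-- The values of a real circuit; the value number `0` is `1`. -/
noncomputable def ev (P : List Gate) : ℕ → ℝ
  | 0 => 1
  | k + 1 => match P[k]? with
    | none => 0
    | some g => opR g.1 (ival g.2.2.2) (ev P (idx k g.2.1)) (ev P (idx k g.2.2.1))
  decreasing_by all_goals exact Nat.lt_succ_of_le (idx_le _ _)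

/-- The circuits whose last value is positive. -/
def RealCircuit : Set (List Gate) := {P | 0 < ev P P.length}

lemma ev_zero (P : List Gate) : ev P 0 = 1 := by rw [ev]

lemma ev_succ {P : List Gate} {k : ℕ} {g : Gate} (h : P[k]? = some g) :
    ev P (k + 1) = opR g.1 (ival g.2.2.2) (ev P (idx k g.2.1)) (ev P (idx k g.2.2.1)) := by
  rw [ev, h]

lemma ev_append (P Q : List Gate) : ∀ c, c ≤ P.length → ev (P ++ Q) c = ev P c := by
  intro c
  induction c using Nat.strong_induction_on with
  | _ c ih =>
    intro hc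
    rcases c with _ | k
    · rw [ev_zero, ev_zero]
    · have hk : k < P.length := by omega
      have h1 : P[k]? = some P[k] := List.getElem?_eq_getElem hk
      have h2 : (P ++ Q)[k]? = some P[k] := by
        rw [List.getElem?_append_left hk, h1]
      have a1 := idx_le k P[k].2.1
      have a2 := idx_le k P[k].2.2.1
      rw [ev_succ h1, ev_succ h2, ih _ (by omega) (by omega), ih _ (by omega) (by omega)]

lemma ev_snoc (P Q : List Gate) (g : Gate) :
    ev (P ++ g :: Q) (P.length + 1) = opR g.1 (ival g.2.2.2)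
      (ev (P ++ g :: Q) (idx P.length g.2.1)) (ev (P ++ g :: Q) (idx P.length g.2.2.1)) := by
  apply ev_succ
  rw [List.getElem?_append_right (le_refl _), Nat.sub_self]
  rfl

/-! ### Uniqueness of the values of programs -/

lemma Res.unique {op : ℕ} {z a b c c' : ℝ} (h : Res op z a b c) (h' : Res op z a b c') :
    c = c' := by
  match op, h, h' with
  | 0, h, h' => exact Eq.trans h (Eq.symm h')
  | 1, h, h' => exact Eq.trans h (Eq.symm h')
  | 2, h, h' => exact Eq.trans h (Eq.symm h')
  | 3, h, h' => exact Eq.trans h (Eq.symm h')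
  | 4, h, h' => exact Eq.trans h.2 (Eq.symm h'.2)
  | 5, h, h' =>
    by_cases ha : a = 0
    · rw [h.1 ha, h'.1 ha]
    · rw [h.2 ha, h'.2 ha]
  | n + 6, h, h' =>
    obtain ⟨h1, h2⟩ : 0 ≤ c ∧ c * c = a := h
    obtain ⟨h1', h2'⟩ : 0 ≤ c' ∧ c' * c' = a := h'
    rcases mul_self_eq_mul_self_iff.1 (h2.trans h2'.symm) with h3 | h3
    · exact h3
    · have h4 : c' = 0 := by linarith
      rw [h3, h4, neg_zero]

lemma Values.unique {P : List Gate} {v v' : ℕ → ℝ} (h : Values P v) (h' : Values P v') :
    ∀ c, c ≤ P.length → v c = v' c := by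
  intro c
  induction c using Nat.strong_induction_on with
  | _ c ih =>
    intro hc
    rcases c with _ | k
    · rw [h.1, h'.1]
    · have hk : k < P.length := by omega
      have h1 : P[k]? = some P[k] := List.getElem?_eq_getElem hk
      have a1 := idx_le k P[k].2.1
      have a2 := idx_le k P[k].2.2.1
      have h2 := h.2 k _ h1
      have h3 := h'.2 k _ h1
      rw [← ih _ (by omega) (by omega), ← ih _ (by omega) (by omega)] at h3
      exact h2.unique h3

lemma realSLP_iff {P : List Gate} {v : ℕ → ℝ} (h : Values P v) :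
    P ∈ RealSLP ↔ 0 ≤ v P.length := by
  constructor
  · rintro ⟨v', h1, h2⟩
    rw [h.unique h1 _ (le_refl _)]
    exact h2
  · intro h1
    exact ⟨v, h, h1⟩

/-! ### Compilation of circuits to programs -/

/-- an unused gate -/
def fil : Gate := (0, 0, 0, zer)

/-- the number `2` -/
def two : BInt := (true, [false, true])

/-- Six gates of a program that simulate one gate of a circuit. -/
def blk (k op I J : ℕ) (z : BInt) : List Gate :=
  if op = 0 then [fil, fil, fil, fil, fil, (0, 0, 0, z)]
  else if op = 1 then [fil, fil, fil, fil, fil, (1, I, J, zer)]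
  else if op = 2 then [fil, fil, fil, fil, fil, (2, I, J, zer)]
  else if op = 3 then [fil, fil, fil, fil, fil, (3, I, J, zer)]
  else if op = 4 then [(5, J, 0, zer), (2, 0, 6 * k + 1, zer), (1, J, 6 * k + 2, zer),
    (3, I, 6 * k + 1, zer), fil, (4, 6 * k + 4, 6 * k + 3, zer)]
  else if op = 5 then [(3, I, I, zer), (6, 6 * k + 1, 0, zer), (1, I, 6 * k + 2, zer),
    (0, 0, 0, two), (4, 6 * k + 3, 6 * k + 4, zer), (6, 6 * k + 5, 0, zer)]
  else [(3, I, I, zer), (6, 6 * k + 1, 0, zer), (1, I, 6 * k + 2, zer), fil, fil,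
    (5, 6 * k + 3, 0, zer)]

/-- the values of the six gates -/
noncomputable def blkV (op : ℕ) (z a b : ℝ) : List ℝ :=
  if op = 0 then [0, 0, 0, 0, 0, z]
  else if op = 1 then [0, 0, 0, 0, 0, a + b]
  else if op = 2 then [0, 0, 0, 0, 0, a - b]
  else if op = 3 then [0, 0, 0, 0, 0, a * b]
  else if op = 4 then [if b = 0 then 0 else 1, 1 - (if b = 0 then 0 else 1),
    b + (1 - (if b = 0 then 0 else 1)), a * (if b = 0 then 0 else 1), 0, a / b]
  else if op = 5 then [a * a, |a|, a + |a|, 2, (a + |a|) / 2, √a]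
  else [a * a, |a|, a + |a|, 0, 0, if 0 < a then 1 else 0]

lemma blk_length (k op I J : ℕ) (z : BInt) : (blk k op I J z).length = 6 := by
  unfold blk
  split_ifs <;> rfl

lemma blkV_last (op : ℕ) (z a b : ℝ) : (blkV op z a b).getD 5 0 = opR op z a b := by
  match op with
  | 0 => rfl
  | 1 => rfl
  | 2 => rfl
  | 3 => rfl
  | 4 => rfl
  | 5 => rfl
  | n + 6 =>
    have e0 : ¬ (n + 6 = 0) := by omega
    have e1 : ¬ (n + 6 = 1) := by omega
    have e2 : ¬ (n + 6 = 2) := by omega
    have e3 : ¬ (n + 6 = 3) := by omega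
    have e4 : ¬ (n + 6 = 4) := by omega
    have e5 : ¬ (n + 6 = 5) := by omega
    unfold blkV
    simp only [e0, e1, e2, e3, e4, e5, if_false]
    rfl

lemma ival_two : ival two = 2 := by simp [two, ival, bval]

lemma blk_ok {k op I J : ℕ} {z : BInt} {a b : ℝ} {v : ℕ → ℝ} (h0 : v 0 = 1) (hI : v I = a)
    (hJ : v J = b) (hI' : I ≤ 6 * k) (hJ' : J ≤ 6 * k)
    (hv : ∀ r < 6, v (6 * k + r + 1) = (blkV op (ival z) a b).getD r 0) :
    ∀ r g, (blk k op I J z)[r]? = some g →
      Res g.1 (ival g.2.2.2) (v (idx (6 * k + r) g.2.1)) (v (idx (6 * k + r) g.2.2.1))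
        (v (6 * k + r + 1)) := by
  intro r g hg
  have hr : r < 6 := by
    have h1 := (List.getElem?_eq_some_iff.1 hg).1
    rwa [blk_length] at h1
  have i0 : ∀ K, v (idx K 0) = 1 := fun K => by rw [idx_eq (Nat.zero_le _), h0]
  have iI : ∀ s, v (idx (6 * k + s) I) = a := fun s => by rw [idx_eq (by omega), hI]
  have iJ : ∀ s, v (idx (6 * k + s) J) = b := fun s => by rw [idx_eq (by omega), hJ]
  have iI0 : v (idx (6 * k) I) = a := iI 0
  have iJ0 : v (idx (6 * k) J) = b := iJ 0
  have hv0 := hv 0 (by omega)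
  have hv1 := hv 1 (by omega)
  have hv2 := hv 2 (by omega)
  have hv3 := hv 3 (by omega)
  have hv4 := hv 4 (by omega)
  have hv5 := hv 5 (by omega)
  clear hv
  simp only [Nat.add_assoc, Nat.reduceAdd, add_zero, zero_add] at hv0 hv1 hv2 hv3 hv4 hv5
  by_cases e0 : op = 0
  · subst e0
    simp only [blk, if_true] at hg
    simp only [blkV, if_true] at hv0 hv1 hv2 hv3 hv4 hv5
    interval_cases r <;> simp at hg <;> subst hg <;> simp [Res, fil, ival_zer] <;> assumption
  by_cases e1 : op = 1
  · subst e1
    simp only [blk, one_ne_zero, if_true, if_false] at hg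
    simp only [blkV, one_ne_zero, if_true, if_false] at hv0 hv1 hv2 hv3 hv4 hv5
    interval_cases r <;> simp at hg <;> subst hg <;> simp [Res, fil, ival_zer, iI, iJ] <;>
      assumption
  by_cases e2 : op = 2
  · subst e2
    simp only [blk, e0, e1, if_true, if_false] at hg
    simp only [blkV, e0, e1, if_true, if_false] at hv0 hv1 hv2 hv3 hv4 hv5
    interval_cases r <;> simp at hg <;> subst hg <;> simp [Res, fil, ival_zer, iI, iJ] <;>
      assumption
  by_cases e3 : op = 3
  · subst e3
    simp only [blk, e0, e1, e2, if_true, if_false] at hg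
    simp only [blkV, e0, e1, e2, if_true, if_false] at hv0 hv1 hv2 hv3 hv4 hv5
    interval_cases r <;> simp at hg <;> subst hg <;> simp [Res, fil, ival_zer, iI, iJ] <;>
      assumption
  have k1 : ∀ s, 1 ≤ s → v (idx (6 * k + s) (6 * k + 1)) = v (6 * k + 1) := fun s hs => by
    rw [idx_eq (by omega)]
  have k2 : ∀ s, 2 ≤ s → v (idx (6 * k + s) (6 * k + 2)) = v (6 * k + 2) := fun s hs => by
    rw [idx_eq (by omega)]
  have k3 : ∀ s, 3 ≤ s → v (idx (6 * k + s) (6 * k + 3)) = v (6 * k + 3) := fun s hs => by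
    rw [idx_eq (by omega)]
  have k4 : ∀ s, 4 ≤ s → v (idx (6 * k + s) (6 * k + 4)) = v (6 * k + 4) := fun s hs => by
    rw [idx_eq (by omega)]
  have k5 : ∀ s, 5 ≤ s → v (idx (6 * k + s) (6 * k + 5)) = v (6 * k + 5) := fun s hs => by
    rw [idx_eq (by omega)]
  by_cases e4 : op = 4
  · subst e4
    simp only [blk, e0, e1, e2, e3, if_true, if_false] at hg
    simp only [blkV, e0, e1, e2, e3, if_true, if_false, List.getD_cons_zero,
      List.getD_cons_succ] at hv0 hv1 hv2 hv3 hv4 hv5
    interval_cases r
    · simp at hg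
      subst hg
      simp only [Res, add_zero, iJ0, hv0]
      exact ⟨fun h => if_pos h, fun h => if_neg h⟩
    · simp at hg
      subst hg
      simp only [Res, Nat.add_assoc, Nat.reduceAdd, i0, k1 1 (le_refl _), hv0, hv1]
    · simp at hg
      subst hg
      simp only [Res, Nat.add_assoc, Nat.reduceAdd, iJ, k2 2 (le_refl _), hv1, hv2]
    · simp at hg
      subst hg
      simp only [Res, Nat.add_assoc, Nat.reduceAdd, iI, k1 3 (by omega), hv0, hv3]
    · simp at hg
      subst hg
      simp only [Res, fil, ival_zer, Nat.add_assoc, Nat.reduceAdd, hv4, Int.cast_zero]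
    · simp at hg
      subst hg
      simp only [Res, Nat.add_assoc, Nat.reduceAdd, k4 5 (by omega), k3 5 (by omega), hv3, hv2,
        hv5]
      by_cases hb : b = 0
      · simp [hb]
      · simp [hb]
  by_cases e5 : op = 5
  · subst e5
    simp only [blk, e0, e1, e2, e3, e4, if_true, if_false] at hg
    simp only [blkV, e0, e1, e2, e3, e4, if_true, if_false, List.getD_cons_zero,
      List.getD_cons_succ] at hv0 hv1 hv2 hv3 hv4 hv5
    interval_cases r
    · simp at hg
      subst hg
      simp only [Res, add_zero, iI0, hv0]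
    · simp at hg
      subst hg
      simp only [Res, Nat.add_assoc, Nat.reduceAdd, k1 1 (le_refl _), hv0, hv1]
      exact ⟨abs_nonneg a, abs_mul_abs_self a⟩
    · simp at hg
      subst hg
      simp only [Res, Nat.add_assoc, Nat.reduceAdd, iI, k2 2 (le_refl _), hv1, hv2]
    · simp at hg
      subst hg
      simp only [Res, ival_two, Nat.add_assoc, Nat.reduceAdd, hv3, Int.cast_ofNat]
    · simp at hg
      subst hg
      simp only [Res, Nat.add_assoc, Nat.reduceAdd, k3 4 (by omega), k4 4 (by omega), hv2, hv3,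
        hv4]
      exact ⟨two_ne_zero, trivial⟩
    · simp at hg
      subst hg
      simp only [Res, Nat.add_assoc, Nat.reduceAdd, k5 5 (by omega), hv4, hv5]
      refine ⟨Real.sqrt_nonneg a, ?_⟩
      rcases le_total 0 a with ha | ha
      · rw [Real.mul_self_sqrt ha, abs_of_nonneg ha]
        ring
      · rw [Real.sqrt_eq_zero_of_nonpos ha, abs_of_nonpos ha]
        ring
  · simp only [blk, e0, e1, e2, e3, e4, e5, if_false] at hg
    simp only [blkV, e0, e1, e2, e3, e4, e5, if_false, List.getD_cons_zero,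
      List.getD_cons_succ] at hv0 hv1 hv2 hv3 hv4 hv5
    interval_cases r
    · simp at hg
      subst hg
      simp only [Res, add_zero, iI0, hv0]
    · simp at hg
      subst hg
      simp only [Res, Nat.add_assoc, Nat.reduceAdd, k1 1 (le_refl _), hv0, hv1]
      exact ⟨abs_nonneg a, abs_mul_abs_self a⟩
    · simp at hg
      subst hg
      simp only [Res, Nat.add_assoc, Nat.reduceAdd, iI, k2 2 (le_refl _), hv1, hv2]
    · simp at hg
      subst hg
      simp only [Res, fil, ival_zer, Nat.add_assoc, Nat.reduceAdd, hv3, Int.cast_zero]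
    · simp at hg
      subst hg
      simp only [Res, fil, ival_zer, Nat.add_assoc, Nat.reduceAdd, hv4, Int.cast_zero]
    · simp at hg
      subst hg
      simp only [Res, Nat.add_assoc, Nat.reduceAdd, k3 5 (by omega), hv2, hv5]
      rcases le_or_gt a 0 with ha | ha
      · rw [abs_of_nonpos ha, if_neg (not_lt.2 ha)]
        simp
      · rw [abs_of_pos ha, if_pos ha]
        have : a + a ≠ 0 := by linarith
        simp [this]

end Pool.Agent.Helper95.Slp
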