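import Pool.Agent.Helper95.Slp.Defs

/-!
# The translation of straight-line programs is computable in polynomial time
-/

open Pool.Agent.Helper91.PolyTime

namespace Pool.Agent.Helper95.Slp

open Pool.Agent.Helper92.Theta

variable {α : Type} [PEnc α]

lemma ptf_tab {N : α → ℕ} {c : α → ℕ → ℕ → BInt} (hN : PTF N)
    (hc : PTF (fun p : (α × ℕ) × ℕ => c p.1.1 p.1.2 p.2)) : PTF (fun x => tab (N x) (c x)) := by
  unfold tab
  refine PTF.map (f := fun x i => (List.range (N x)).map fun j => c x i j) (PTF.range hN) ?_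
  exact PTF.map (f := fun (p : α × ℕ) j => c p.1 p.2 j) (PTF.range (hN.comp PTF.id.fst)) hc

lemma ptf_co1 {p q i j : α → ℕ} {z : α → BInt} (hp : PTF p) (hq : PTF q) (hz : PTF z)
    (hi : PTF i) (hj : PTF j) : PTF (fun x => co1 (p x) (q x) (z x) (i x) (j x)) := by
  unfold co1
  exact PTF.ite (PTF.decide_and (PTF.eq hi hp) (PTF.eq hj hq)) hz (PTF.const _)

lemma ptf_co2 {p q p' q' i j : α → ℕ} {z z' : α → BInt} (hp : PTF p) (hq : PTF q) (hz : PTF z)
    (hp' : PTF p') (hq' : PTF q') (hz' : PTF z') (hi : PTF i) (hj : PTF j) :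
    PTF (fun x => co2 (p x) (q x) (z x) (p' x) (q' x) (z' x) (i x) (j x)) := by
  unfold co2
  exact PTF.ite (PTF.decide_and (PTF.eq hi hp) (PTF.eq hj hq)) hz (ptf_co1 hp' hq' hz' hi hj)

lemma ptf_co3 {p q p' q' p'' q'' i j : α → ℕ} {z z' z'' : α → BInt} (hp : PTF p) (hq : PTF q)
    (hz : PTF z) (hp' : PTF p') (hq' : PTF q') (hz' : PTF z') (hp'' : PTF p'') (hq'' : PTF q'')
    (hz'' : PTF z'') (hi : PTF i) (hj : PTF j) :
    PTF (fun x => co3 (p x) (q x) (z x) (p' x) (q' x) (z' x) (p'' x) (q'' x) (z'' x) (i x)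
      (j x)) := by
  unfold co3
  exact PTF.ite (PTF.decide_and (PTF.eq hi hp) (PTF.eq hj hq)) hz
    (ptf_co2 hp' hq' hz' hp'' hq'' hz'' hi hj)

lemma ptf_eq1 {N p q : α → ℕ} {b : α → BInt} (hN : PTF N) (hp : PTF p) (hq : PTF q)
    (hb : PTF b) : PTF (fun x => eq1 (N x) (p x) (q x) (b x)) := by
  unfold eq1
  refine PTF.pair (ptf_tab (c := fun x => co1 (p x) (q x) one) hN ?_) hb
  exact ptf_co1 (hp.comp PTF.id.fst.fst) (hq.comp PTF.id.fst.fst) (PTF.const _) PTF.id.fst.snd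
    PTF.id.snd

lemma ptf_eq2 {N p q p' q' : α → ℕ} {z : α → BInt} (hN : PTF N) (hp : PTF p) (hq : PTF q)
    (hp' : PTF p') (hq' : PTF q') (hz : PTF z) :
    PTF (fun x => eq2 (N x) (p x) (q x) (p' x) (q' x) (z x)) := by
  unfold eq2
  refine PTF.pair (ptf_tab (c := fun x => co2 (p x) (q x) one (p' x) (q' x) (z x)) hN ?_)
    (PTF.const _)
  exact ptf_co2 (hp.comp PTF.id.fst.fst) (hq.comp PTF.id.fst.fst) (PTF.const _)
    (hp'.comp PTF.id.fst.fst) (hq'.comp PTF.id.fst.fst) (hz.comp PTF.id.fst.fst) PTF.id.fst.snd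
    PTF.id.snd

lemma ptf_eq3 {N p q p' q' p'' q'' : α → ℕ} {z : α → BInt} (hN : PTF N) (hp : PTF p)
    (hq : PTF q) (hp' : PTF p') (hq' : PTF q') (hp'' : PTF p'') (hq'' : PTF q'') (hz : PTF z) :
    PTF (fun x => eq3 (N x) (p x) (q x) (p' x) (q' x) (p'' x) (q'' x) (z x)) := by
  unfold eq3
  refine PTF.pair (ptf_tab (c := fun x => co3 (p x) (q x) one (p' x) (q' x) mone (p'' x) (q'' x)
    (z x)) hN ?_) (PTF.const _)
  exact ptf_co3 (hp.comp PTF.id.fst.fst) (hq.comp PTF.id.fst.fst) (PTF.const _)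
    (hp'.comp PTF.id.fst.fst) (hq'.comp PTF.id.fst.fst) (PTF.const _)
    (hp''.comp PTF.id.fst.fst) (hq''.comp PTF.id.fst.fst) (hz.comp PTF.id.fst.fst) PTF.id.fst.snd
    PTF.id.snd

lemma ptf_bneg' {z : α → BInt} (hz : PTF z) : PTF (fun x => bneg (z x)) := by
  unfold bneg
  exact PTF.pair (PTF.not hz.fst) hz.snd

lemma ptf_gateL {N op i j t u a b : α → ℕ} {z : α → BInt} (hN : PTF N) (hop : PTF op)
    (hi : PTF i) (hj : PTF j) (ht : PTF t) (hu : PTF u) (ha : PTF a) (hb : PTF b) (hz : PTF z) :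
    PTF (fun x => gateL (N x) (op x) (i x) (j x) (t x) (u x) (a x) (b x) (z x)) := by
  unfold gateL
  have h0 : PTF (fun _ : α => 0) := PTF.const 0
  have hone : PTF (fun _ : α => one) := PTF.const _
  have hmone : PTF (fun _ : α => mone) := PTF.const _
  refine PTF.ite (PTF.eq hop (PTF.const 0)) ?_ (PTF.ite (PTF.eq hop (PTF.const 1)) ?_
    (PTF.ite (PTF.eq hop (PTF.const 2)) ?_ (PTF.ite (PTF.eq hop (PTF.const 3)) ?_
    (PTF.ite (PTF.eq hop (PTF.const 4)) ?_ (PTF.ite (PTF.eq hop (PTF.const 5)) ?_ ?_)))))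
  · exact PTF.cons (ptf_eq1 hN h0 ht hz) (PTF.cons (ptf_eq2 hN ht ht h0 ht (ptf_bneg' hz))
      (PTF.const []))
  · exact PTF.cons (ptf_eq3 hN h0 ht h0 hi hj h0 hmone)
      (PTF.cons (ptf_eq3 hN ht ht hi ht ht hj hmone) (PTF.const []))
  · exact PTF.cons (ptf_eq3 hN h0 ht h0 hi hj h0 hone)
      (PTF.cons (ptf_eq3 hN ht ht hi ht ht hj hone) (PTF.const []))
  · exact PTF.cons (ptf_eq2 hN h0 ht hi hj hmone) (PTF.cons (ptf_eq2 hN h0 hu hj ht hmone)
      (PTF.cons (ptf_eq2 hN ht ht hi hu hmone) (PTF.const [])))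
  · exact PTF.cons (ptf_eq2 hN hj ht h0 hi hmone) (PTF.cons (ptf_eq2 hN h0 hu ht ht hmone)
      (PTF.cons (ptf_eq2 hN hj hu hi ht hmone) (PTF.cons (ptf_eq1 hN ha hb hone)
      (PTF.cons (ptf_eq2 hN hb hb hj hj hmone) (PTF.const [])))))
  · exact PTF.cons (ptf_eq2 hN h0 hi hi ht hmone) (PTF.cons (ptf_eq2 hN ht ht h0 ht hmone)
      (PTF.cons (ptf_eq2 hN hb hb hi hi hmone) (PTF.cons (ptf_eq2 hN ha hb h0 ht hmone)
      (PTF.const []))))
  · exact PTF.cons (ptf_eq2 hN ht ht h0 hi hmone) (PTF.cons (ptf_eq2 hN ha ha h0 ht hmone)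
      (PTF.cons (ptf_eq2 hN ha hb h0 hi hmone) (PTF.cons (ptf_eq2 hN hb hb hi ht hmone)
      (PTF.const []))))

lemma ptf_idx {k i : α → ℕ} (hk : PTF k) (hi : PTF i) : PTF (fun x => idx (k x) (i x)) := by
  unfold idx
  exact PTF.ite (PTF.le hi hk) hi (PTF.const _)

lemma ptf_lin4 {c : α → ℕ} (hc : PTF c) (m : ℕ) : PTF (fun x => 4 * c x + m) :=
  PTF.add (PTF.mul (PTF.const 4) hc) (PTF.const m)

lemma ptf_gateE {N k : α → ℕ} {g : α → Gate} (hN : PTF N) (hk : PTF k) (hg : PTF g) :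
    PTF (fun x => gateE (N x) (k x) (g x)) := by
  unfold gateE
  exact ptf_gateL hN hg.fst (ptf_lin4 (ptf_idx hk hg.snd.fst) 1)
    (ptf_lin4 (ptf_idx hk hg.snd.snd.fst) 1) (ptf_lin4 (PTF.succ hk) 1)
    (ptf_lin4 (PTF.succ hk) 2) (ptf_lin4 (PTF.succ hk) 3) (ptf_lin4 (PTF.succ hk) 4)
    hg.snd.snd.snd

/-- The translation is computable in polynomial time. -/
theorem ptf_sys : PTF sys := by
  unfold sys
  have hsz : PTF (fun P : List Gate => sz P) := ptf_lin4 (PTF.length PTF.id) 5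
  have hc : ∀ m : ℕ, PTF (fun _ : List Gate => m) := fun m => PTF.const m
  have hone : PTF (fun _ : List Gate => one) := PTF.const _
  have hmone : PTF (fun _ : List Gate => mone) := PTF.const _
  refine PTF.pair hsz (PTF.append ?_ ?_)
  · exact PTF.cons (ptf_eq1 hsz (hc 0) (hc 0) hone) (PTF.cons (ptf_eq1 hsz (hc 0) (hc 1) hone)
      (PTF.cons (ptf_eq1 hsz (hc 1) (hc 1) hone) (PTF.cons
      (ptf_eq2 hsz (hc 2) (hc 2) (hc 0) (ptf_lin4 (PTF.length PTF.id) 1) hmone)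
      (PTF.const []))))
  · refine PTF.flatMap (f := fun (P : List Gate) k => gateE (sz P) k ((P[k]?).getD g0))
      (PTF.range (PTF.length PTF.id)) ?_
    exact ptf_gateE (hsz.comp PTF.id.fst) PTF.id.snd
      (ptf_getD (PTF.getElem? PTF.id.snd PTF.id.fst) (PTF.const _))

end Pool.Agent.Helper95.Slp
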