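import Pool.Agent.Helper95.Slp.Circ
import Pool.Agent.Helper95.Slp.Ptf

/-!
# Compilation of real circuits, and reductions to real circuits
-/

open Pool.Agent.Helper91.PolyTime

namespace Pool.Agent.Helper95.Slp

open Pool.Agent.Helper92.Theta

/-- The program that simulates the circuit. -/
def cmp (P : List Gate) : List Gate :=
  (List.range P.length).flatMap fun k =>
    blk k ((P[k]?).getD g0).1 (6 * idx k ((P[k]?).getD g0).2.1)
      (6 * idx k ((P[k]?).getD g0).2.2.1) ((P[k]?).getD g0).2.2.2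

lemma getElem?_flatMap_range {γ : Type} (m : ℕ) (f : ℕ → List γ) (hf : ∀ k, (f k).length = m)
    (n k r : ℕ) (hk : k < n) (hr : r < m) :
    ((List.range n).flatMap f)[m * k + r]? = (f k)[r]? := by
  induction n with
  | zero => omega
  | succ n ih =>
    rw [List.range_succ, List.flatMap_append]
    have hlen : ((List.range n).flatMap f).length = m * n := by
      rw [List.length_flatMap]
      simp [hf, mul_comm]
    rcases Nat.lt_succ_iff_lt_or_eq.1 hk with h | h
    · rw [List.getElem?_append_left, ih h]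
      rw [hlen]
      calc m * k + r < m * k + m := by omega
        _ = m * (k + 1) := by ring
        _ ≤ m * n := Nat.mul_le_mul_left m h
    · subst h
      rw [List.getElem?_append_right (by rw [hlen]; omega), hlen]
      simp

lemma cmp_length (P : List Gate) : (cmp P).length = 6 * P.length := by
  unfold cmp
  rw [List.length_flatMap]
  simp [blk_length, mul_comm]

/-- the values of the compiled program -/
noncomputable def cv (P : List Gate) (c : ℕ) : ℝ :=
  if c = 0 then 1 else
    (blkV ((P[(c - 1) / 6]?).getD g0).1 (ival ((P[(c - 1) / 6]?).getD g0).2.2.2)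
      (ev P (idx ((c - 1) / 6) ((P[(c - 1) / 6]?).getD g0).2.1))
      (ev P (idx ((c - 1) / 6) ((P[(c - 1) / 6]?).getD g0).2.2.1))).getD ((c - 1) % 6) 0

lemma cv_six (P : List Gate) (c : ℕ) (hc : c ≤ P.length) : cv P (6 * c) = ev P c := by
  rcases c with _ | k
  · rw [ev_zero]; rfl
  · have hk : k < P.length := by omega
    have h1 : P[k]? = some P[k] := List.getElem?_eq_getElem hk
    have h2 : (6 * (k + 1) - 1) / 6 = k := by omega
    have h3 : (6 * (k + 1) - 1) % 6 = 5 := by omega
    unfold cv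
    rw [if_neg (by omega), h2, h3, h1, Option.getD_some, blkV_last, ev_succ h1]

lemma cmp_values (P : List Gate) : Values (cmp P) (cv P) := by
  refine ⟨rfl, fun K g hg => ?_⟩
  have hK : K < 6 * P.length := by
    have := (List.getElem?_eq_some_iff.1 hg).1
    rwa [cmp_length] at this
  obtain ⟨k, r, hr, rfl⟩ : ∃ k r, r < 6 ∧ K = 6 * k + r :=
    ⟨K / 6, K % 6, Nat.mod_lt _ (by omega), by omega⟩
  have hk : k < P.length := by omega
  have h1 : P[k]? = some P[k] := List.getElem?_eq_getElem hk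
  unfold cmp at hg
  rw [getElem?_flatMap_range 6 _ (fun _ => blk_length _ _ _ _ _) _ _ _ hk hr, h1,
    Option.getD_some] at hg
  have a1 := idx_le k P[k].2.1
  have a2 := idx_le k P[k].2.2.1
  refine blk_ok (a := ev P (idx k P[k].2.1)) (b := ev P (idx k P[k].2.2.1)) rfl
    (cv_six P _ (by omega)) (cv_six P _ (by omega)) (by omega) (by omega) ?_ r g hg
  intro s hs
  have h2 : (6 * k + s + 1 - 1) / 6 = k := by omega
  have h3 : (6 * k + s + 1 - 1) % 6 = s := by omega
  unfold cv
  rw [if_neg (by omega), h2, h3, h1, Option.getD_some]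

lemma cmp_iff (P : List Gate) : cmp P ∈ RealSLP ↔ 0 ≤ ev P P.length := by
  rw [realSLP_iff (cmp_values P), cmp_length, cv_six P _ (le_refl _)]

/-! ### Operations at the end of a circuit -/

/-- append a gate whose operands are given -/
def ap (P : List Gate) (op i j : ℕ) : List Gate := P ++ [(op, i, j, zer)]

lemma ap_length (P : List Gate) (op i j : ℕ) : (ap P op i j).length = P.length + 1 := by
  simp [ap]

lemma ev_ap (P : List Gate) (op i j : ℕ) (hi : i ≤ P.length) (hj : j ≤ P.length) :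
    ev (ap P op i j) (P.length + 1) = opR op 0 (ev P i) (ev P j) := by
  unfold ap
  rw [ev_snoc, ev_append _ _ _ (idx_le _ _), ev_append _ _ _ (idx_le _ _), idx_eq hi, idx_eq hj,
    ival_zer, Int.cast_zero]

lemma ev_ap' (P : List Gate) (op i j c : ℕ) (hc : c ≤ P.length) :
    ev (ap P op i j) c = ev P c := ev_append _ _ _ hc

/-- `x ↦ [0 < x] - 1` -/
def posE (P : List Gate) : List Gate := ap (ap P 6 P.length 0) 2 (P.length + 1) 0

lemma posE_iff (P : List Gate) : 0 ≤ ev (posE P) (posE P).length ↔ 0 < ev P P.length := by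
  unfold posE
  rw [ap_length, ap_length]
  have h1 := ev_ap (ap P 6 P.length 0) 2 (P.length + 1) 0 (by rw [ap_length]) (Nat.zero_le _)
  rw [ap_length] at h1
  rw [h1, ev_ap P 6 P.length 0 (le_refl _) (Nat.zero_le _)]
  simp only [opR, ev_zero]
  split_ifs with h
  · simp [h]
  · simp only [h, iff_false]
    norm_num

/-- `x ↦ 1 - [0 < x]` -/
def negE (P : List Gate) : List Gate := ap (ap P 6 P.length 0) 2 0 (P.length + 1)

lemma negE_iff (P : List Gate) : 0 < ev (negE P) (negE P).length ↔ ¬ 0 < ev P P.length := by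
  unfold negE
  rw [ap_length, ap_length]
  have h1 := ev_ap (ap P 6 P.length 0) 2 0 (P.length + 1) (Nat.zero_le _) (by rw [ap_length])
  rw [ap_length] at h1
  rw [h1, ev_ap P 6 P.length 0 (le_refl _) (Nat.zero_le _)]
  simp only [opR, ev_zero]
  split_ifs with h
  · simp [h]
  · simp [h]

/-! ### Polynomial time -/

lemma ptf_ap {α : Type} [PEnc α] {P : α → List Gate} {op i j : α → ℕ} (hP : PTF P)
    (hop : PTF op) (hi : PTF i) (hj : PTF j) : PTF (fun x => ap (P x) (op x) (i x) (j x)) := by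
  unfold ap
  exact PTF.append hP (PTF.cons (PTF.pair hop (PTF.pair hi (PTF.pair hj (PTF.const _))))
    (PTF.const []))

theorem ptf_posE : PTF posE := by
  unfold posE
  exact ptf_ap (ptf_ap PTF.id (PTF.const 6) (PTF.length PTF.id) (PTF.const 0)) (PTF.const 2)
    (PTF.succ (PTF.length PTF.id)) (PTF.const 0)

theorem ptf_negE : PTF negE := by
  unfold negE
  exact ptf_ap (ptf_ap PTF.id (PTF.const 6) (PTF.length PTF.id) (PTF.const 0)) (PTF.const 2)
    (PTF.const 0) (PTF.succ (PTF.length PTF.id))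

lemma ptf_gate {α : Type} [PEnc α] {op i j : α → ℕ} {z : α → BInt} (hop : PTF op) (hi : PTF i)
    (hj : PTF j) (hz : PTF z) : PTF (fun x => ((op x, i x, j x, z x) : Gate)) :=
  PTF.pair hop (PTF.pair hi (PTF.pair hj hz))

lemma ptf_blk {α : Type} [PEnc α] {k op i j : α → ℕ} {z : α → BInt} (hk : PTF k) (hop : PTF op)
    (hi : PTF i) (hj : PTF j) (hz : PTF z) :
    PTF (fun x => blk (k x) (op x) (i x) (j x) (z x)) := by
  unfold blk
  have hc : ∀ m : ℕ, PTF (fun _ : α => m) := fun m => PTF.const m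
  have hzer : PTF (fun _ : α => zer) := PTF.const _
  have hfil : PTF (fun _ : α => fil) := PTF.const _
  have hlin : ∀ m : ℕ, PTF (fun x => 6 * k x + m) := fun m =>
    PTF.add (PTF.mul (PTF.const 6) hk) (PTF.const m)
  have hfive : ∀ {g : α → Gate}, PTF g → PTF (fun x => [fil, fil, fil, fil, fil, g x]) :=
    fun hg => PTF.cons hfil (PTF.cons hfil (PTF.cons hfil (PTF.cons hfil (PTF.cons hfil
      (PTF.cons hg (PTF.const []))))))
  refine PTF.ite (PTF.eq hop (PTF.const 0)) ?_ (PTF.ite (PTF.eq hop (PTF.const 1)) ?_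
    (PTF.ite (PTF.eq hop (PTF.const 2)) ?_ (PTF.ite (PTF.eq hop (PTF.const 3)) ?_
    (PTF.ite (PTF.eq hop (PTF.const 4)) ?_ (PTF.ite (PTF.eq hop (PTF.const 5)) ?_ ?_)))))
  · exact hfive (ptf_gate (hc 0) (hc 0) (hc 0) hz)
  · exact hfive (ptf_gate (hc 1) hi hj hzer)
  · exact hfive (ptf_gate (hc 2) hi hj hzer)
  · exact hfive (ptf_gate (hc 3) hi hj hzer)
  · exact PTF.cons (ptf_gate (hc 5) hj (hc 0) hzer) (PTF.cons (ptf_gate (hc 2) (hc 0) (hlin 1)
      hzer) (PTF.cons (ptf_gate (hc 1) hj (hlin 2) hzer) (PTF.cons (ptf_gate (hc 3) hi (hlin 1)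
      hzer) (PTF.cons hfil (PTF.cons (ptf_gate (hc 4) (hlin 4) (hlin 3) hzer) (PTF.const []))))))
  · exact PTF.cons (ptf_gate (hc 3) hi hi hzer) (PTF.cons (ptf_gate (hc 6) (hlin 1) (hc 0) hzer)
      (PTF.cons (ptf_gate (hc 1) hi (hlin 2) hzer) (PTF.cons (PTF.const _)
      (PTF.cons (ptf_gate (hc 4) (hlin 3) (hlin 4) hzer)
      (PTF.cons (ptf_gate (hc 6) (hlin 5) (hc 0) hzer) (PTF.const []))))))
  · exact PTF.cons (ptf_gate (hc 3) hi hi hzer) (PTF.cons (ptf_gate (hc 6) (hlin 1) (hc 0) hzer)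
      (PTF.cons (ptf_gate (hc 1) hi (hlin 2) hzer) (PTF.cons hfil
      (PTF.cons hfil
      (PTF.cons (ptf_gate (hc 5) (hlin 3) (hc 0) hzer) (PTF.const []))))))

theorem ptf_cmp : PTF cmp := by
  unfold cmp
  refine PTF.flatMap (f := fun (P : List Gate) k =>
    blk k ((P[k]?).getD g0).1 (6 * idx k ((P[k]?).getD g0).2.1)
      (6 * idx k ((P[k]?).getD g0).2.2.1) ((P[k]?).getD g0).2.2.2)
      (PTF.range (PTF.length PTF.id)) ?_
  have hg : PTF (fun p : List Gate × ℕ => (p.1[p.2]?).getD g0) :=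
    ptf_getD (PTF.getElem? PTF.id.snd PTF.id.fst) (PTF.const _)
  exact ptf_blk PTF.id.snd hg.fst (PTF.mul (PTF.const 6) (ptf_idx PTF.id.snd hg.snd.fst))
    (PTF.mul (PTF.const 6) (ptf_idx PTF.id.snd hg.snd.snd.fst)) hg.snd.snd.snd

/-- The reduction from real circuits to semidefinite feasibility. -/
def circSDP (P : List Gate) : SDP := sys (cmp (posE P))

theorem circSDP_iff (P : List Gate) : P ∈ RealCircuit ↔ circSDP P ∈ SDPFeas := by
  have h1 : cmp (posE P) ∈ RealSLP ↔ circSDP P ∈ SDPFeas := ⟨complete _, sound _⟩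
  rw [← h1, cmp_iff, posE_iff]
  rfl

theorem ptf_circSDP : PTF circSDP := ptf_sys.comp (ptf_cmp.comp ptf_posE)

/-! ### Integer straight-line programs -/

/-- The operations of integer programs. -/
def opZ : ℕ → ℤ → ℤ → ℤ
  | 0, a, b => a + b
  | 1, a, b => a - b
  | _, a, b => a * b

/-- The values of an integer program; the value number `0` is `1`. -/
def evZ (P : List (ℕ × ℕ × ℕ)) : ℕ → ℤ
  | 0 => 1
  | k + 1 => match P[k]? with
    | none => 0
    | some g => opZ g.1 (evZ P (idx k g.2.1)) (evZ P (idx k g.2.2))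
  decreasing_by all_goals exact Nat.lt_succ_of_le (idx_le _ _)

/-- The integer programs whose last value is positive. -/
def PosSLP : Set (List (ℕ × ℕ × ℕ)) := {P | 0 < evZ P P.length}

lemma evZ_zero (P : List (ℕ × ℕ × ℕ)) : evZ P 0 = 1 := by rw [evZ]

lemma evZ_succ {P : List (ℕ × ℕ × ℕ)} {k : ℕ} {g : ℕ × ℕ × ℕ} (h : P[k]? = some g) :
    evZ P (k + 1) = opZ g.1 (evZ P (idx k g.2.1)) (evZ P (idx k g.2.2)) := by
  rw [evZ, h]

/-- the circuit of an integer program -/
def circZ (P : List (ℕ × ℕ × ℕ)) : List Gate :=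
  P.map fun g => (if g.1 = 0 then 1 else if g.1 = 1 then 2 else 3, g.2.1, g.2.2, zer)

lemma ev_circZ (P : List (ℕ × ℕ × ℕ)) : ∀ c, c ≤ P.length → ev (circZ P) c = evZ P c := by
  intro c
  induction c using Nat.strong_induction_on with
  | _ c ih =>
    intro hc
    rcases c with _ | k
    · rw [ev_zero, evZ_zero, Int.cast_one]
    · have hk : k < P.length := by omega
      have h1 : P[k]? = some P[k] := List.getElem?_eq_getElem hk
      have h2 : (circZ P)[k]? = some (if P[k].1 = 0 then 1 else if P[k].1 = 1 then 2 else 3,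
          P[k].2.1, P[k].2.2, zer) := by
        unfold circZ
        rw [List.getElem?_map, h1]
        rfl
      have a1 := idx_le k P[k].2.1
      have a2 := idx_le k P[k].2.2
      rw [ev_succ h2, evZ_succ h1]
      simp only
      rw [ih _ (by omega) (by omega), ih _ (by omega) (by omega)]
      generalize P[k].1 = op
      match op with
      | 0 => simp [opR, opZ]
      | 1 => simp [opR, opZ]
      | n + 2 =>
        have e0 : ¬ (n + 2 = 0) := by omega
        have e1 : ¬ (n + 2 = 1) := by omega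
        simp only [e0, e1, if_false, opR, opZ, Int.cast_mul]

theorem circZ_iff (P : List (ℕ × ℕ × ℕ)) : P ∈ PosSLP ↔ circZ P ∈ RealCircuit := by
  have h1 : (circZ P).length = P.length := by simp [circZ]
  change 0 < evZ P P.length ↔ 0 < ev (circZ P) (circZ P).length
  rw [h1, ev_circZ P _ (le_refl _), Int.cast_pos]

theorem ptf_circZ : PTF circZ := by
  unfold circZ
  refine PTF.map (f := fun (_ : List (ℕ × ℕ × ℕ)) (g : ℕ × ℕ × ℕ) =>
    ((if g.1 = 0 then 1 else if g.1 = 1 then 2 else 3, g.2.1, g.2.2, zer) : Gate)) PTF.id ?_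
  exact ptf_gate (PTF.ite (PTF.eq PTF.id.snd.fst (PTF.const 0)) (PTF.const 1)
    (PTF.ite (PTF.eq PTF.id.snd.fst (PTF.const 1)) (PTF.const 2) (PTF.const 3)))
    PTF.id.snd.snd.fst PTF.id.snd.snd.snd (PTF.const _)

end Pool.Agent.Helper95.Slp
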