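import Pool.Agent.Helper95.Slp.Circ2

/-!
# Sums of square roots
-/

open Pool.Agent.Helper91.PolyTime

namespace Pool.Agent.Helper95.Slp

open Pool.Agent.Helper92.Theta

/-- the term of an entry -/
noncomputable def sqt (z : BInt) : ℝ := (if z.1 = true then 1 else -1) * √(bval z.2 : ℝ)

/-- Lists of integers `±a` in binary for which `∑ ±√a` is nonnegative. -/
def SumSqrt : Set (List BInt) := {l | 0 ≤ (l.map sqt).sum}

/-- three gates for one entry -/
def grp (m : ℕ) (z : BInt) : List Gate :=
  [(0, 0, 0, (true, z.2)), (5, 3 * m + 2, 0, zer),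
    (if z.1 = true then 1 else 2, 3 * m + 1, 3 * m + 3, zer)]

/-- the circuit of the sum -/
def sumC (l : List BInt) : List Gate :=
  (0, 0, 0, zer) :: (List.range l.length).flatMap fun m => grp m ((l[m]?).getD zer)

lemma sumC_length (l : List BInt) : (sumC l).length = 3 * l.length + 1 := by
  unfold sumC
  rw [List.length_cons, List.length_flatMap]
  simp [grp, mul_comm]

lemma sumC_get (l : List BInt) (m r : ℕ) (hm : m < l.length) (hr : r < 3) :
    (sumC l)[3 * m + r + 1]? = (grp m l[m])[r]? := by
  unfold sumC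
  rw [List.getElem?_cons_succ, getElem?_flatMap_range 3 _ (fun _ => rfl) _ _ _ hm hr,
    List.getElem?_eq_getElem hm, Option.getD_some]

lemma ival_true (d : List Bool) : ival (true, d) = bval d := rfl

lemma ev_sumC (l : List BInt) : ∀ m, m ≤ l.length →
    ev (sumC l) (3 * m + 1) = ((l.take m).map sqt).sum := by
  intro m
  induction m with
  | zero =>
    intro _
    have h : (sumC l)[0]? = some (0, 0, 0, zer) := rfl
    rw [Nat.mul_zero, ev_succ h]
    simp [opR, ival_zer]
  | succ m ih =>
    intro hm
    have hm' : m < l.length := by omega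
    have g0' := sumC_get l m 0 hm' (by omega)
    have g1' := sumC_get l m 1 hm' (by omega)
    have g2' := sumC_get l m 2 hm' (by omega)
    have e0 : ev (sumC l) (3 * m + 0 + 1 + 1) = (bval l[m].2 : ℝ) := by
      rw [ev_succ g0']
      simp [opR, ival_true]
    have e1 : ev (sumC l) (3 * m + 1 + 1 + 1) = √(bval l[m].2 : ℝ) := by
      rw [ev_succ g1']
      simp only [opR]
      rw [idx_eq (by omega)]
      congr 1
    have e2 : ev (sumC l) (3 * m + 2 + 1 + 1) = ((l.take m).map sqt).sum + sqt l[m] := by
      rw [ev_succ g2']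
      simp only
      rw [idx_eq (by omega), idx_eq (by omega), ih (by omega)]
      have e3 : ev (sumC l) (3 * m + 3) = √(bval l[m].2 : ℝ) := e1
      rw [e3]
      unfold sqt
      by_cases hz : l[m].1 = true
      · rw [if_pos hz, if_pos hz]
        simp [opR]
      · rw [if_neg hz, if_neg hz]
        simp [opR, sub_eq_add_neg]
    have e4 : 3 * (m + 1) + 1 = 3 * m + 2 + 1 + 1 := by ring
    rw [e4, e2, List.take_succ_eq_append_getElem hm', List.map_append, List.sum_append]
    simp

/-- The reduction of the sum of square roots problem to real circuits. -/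
def circS (l : List BInt) : List Gate := negE (ap (sumC l) 2 1 (3 * l.length + 1))

theorem circS_iff (l : List BInt) : l ∈ SumSqrt ↔ circS l ∈ RealCircuit := by
  change 0 ≤ (l.map sqt).sum ↔ 0 < ev (circS l) (circS l).length
  unfold circS
  rw [negE_iff, ap_length, ev_ap _ _ _ _ (by rw [sumC_length]; omega) (by rw [sumC_length]),
    ev_sumC l _ (le_refl _)]
  have h1 : ev (sumC l) 1 = 0 := by
    have := ev_sumC l 0 (Nat.zero_le _)
    simpa using this
  simp [h1, opR]

lemma ptf_grp {α : Type} [PEnc α] {m : α → ℕ} {z : α → BInt} (hm : PTF m) (hz : PTF z) :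
    PTF (fun x => grp (m x) (z x)) := by
  unfold grp
  have hc : ∀ m : ℕ, PTF (fun _ : α => m) := fun m => PTF.const m
  have hzer : PTF (fun _ : α => zer) := PTF.const _
  have hlin : ∀ s : ℕ, PTF (fun x => 3 * m x + s) := fun s =>
    PTF.add (PTF.mul (PTF.const 3) hm) (PTF.const s)
  exact PTF.cons (ptf_gate (hc 0) (hc 0) (hc 0) (PTF.pair (PTF.const true) hz.snd))
    (PTF.cons (ptf_gate (hc 5) (hlin 2) (hc 0) hzer) (PTF.cons (ptf_gate
    (PTF.ite (PTF.eq hz.fst (PTF.const true)) (hc 1) (hc 2)) (hlin 1) (hlin 3) hzer)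
    (PTF.const [])))

theorem ptf_circS : PTF circS := by
  unfold circS
  have hlen : PTF (fun l : List BInt => l.length) := PTF.length PTF.id
  refine ptf_negE.comp (ptf_ap ?_ (PTF.const 2) (PTF.const 1) (PTF.add
    (PTF.mul (PTF.const 3) hlen) (PTF.const 1)))
  unfold sumC
  refine PTF.cons (PTF.const _) (PTF.flatMap
    (f := fun (l : List BInt) m => grp m ((l[m]?).getD zer)) (PTF.range hlen) ?_)
  exact ptf_grp PTF.id.snd (ptf_getD (PTF.getElem? PTF.id.snd PTF.id.fst) (PTF.const _))

end Pool.Agent.Helper95.Slp
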