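import Pool.Agent.Helper92.Theta.Main

/-!
# Straight-line programs and semidefinite systems

A straight-line program with the operations `+, -, *, /, √` and the test `x ≠ 0` is translated
into a semidefinite system. The row `0` of the matrix stands for the number `1`, the row `tI c` for the `c`-th value
of the program; the other rows are auxiliary.
-/

namespace Pool.Agent.Helper95.Slp

open Pool.Agent.Helper92.Theta

/-- A gate: the operation, the two operands, and a constant in binary. -/
abbrev Gate : Type := ℕ × ℕ × ℕ × BInt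

/-- The `i`-th value as operand of the gate that computes the value `k + 1`; if it is not
available, the value `0` (which is the number `1`) is used instead. -/
def idx (k i : ℕ) : ℕ := if i ≤ k then i else 0

/-- `c` is the result of the operation with the operands `a`, `b` and the constant `z`. -/
def Res : ℕ → ℝ → ℝ → ℝ → ℝ → Prop
  | 0, z, _, _, c => c = z
  | 1, _, a, b, c => c = a + b
  | 2, _, a, b, c => c = a - b
  | 3, _, a, b, c => c = a * b
  | 4, _, a, b, c => b ≠ 0 ∧ c = a / b
  | 5, _, a, _, c => (a = 0 → c = 0) ∧ (a ≠ 0 → c = 1)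
  | _, _, a, _, c => 0 ≤ c ∧ c * c = a

/-- `v` is the sequence of the values of the program `P`. -/
def Values (P : List Gate) (v : ℕ → ℝ) : Prop :=
  v 0 = 1 ∧ ∀ k g, P[k]? = some g →
    Res g.1 (ival g.2.2.2) (v (idx k g.2.1)) (v (idx k g.2.2.1)) (v (k + 1))

/-- The program can be executed (no division by zero, no square root of a negative number), and
the last value is nonnegative. -/
def RealSLP : Set (List Gate) := {P | ∃ v, Values P v ∧ 0 ≤ v P.length}

/-! ### Equations with few terms -/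

/-- An `N × N` matrix as a list of rows. -/
def tab (N : ℕ) (c : ℕ → ℕ → BInt) : List (List BInt) :=
  (List.range N).map fun i => (List.range N).map fun j => c i j

/-- coefficients with one nonzero entry -/
def co1 (p q : ℕ) (z : BInt) (i j : ℕ) : BInt := if i = p ∧ j = q then z else (true, [])

/-- coefficients with two nonzero entries -/
def co2 (p q : ℕ) (z : BInt) (p' q' : ℕ) (z' : BInt) (i j : ℕ) : BInt :=
  if i = p ∧ j = q then z else co1 p' q' z' i j

/-- coefficients with three nonzero entries -/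
def co3 (p q : ℕ) (z : BInt) (p' q' : ℕ) (z' : BInt) (p'' q'' : ℕ) (z'' : BInt) (i j : ℕ) : BInt :=
  if i = p ∧ j = q then z else co2 p' q' z' p'' q'' z'' i j

/-- the number `1` -/
def one : BInt := (true, [true])

/-- the number `-1` -/
def mone : BInt := (false, [true])

/-- the number `0` -/
def zer : BInt := (true, [])

/-- `Y p q = b` -/
def eq1 (N p q : ℕ) (b : BInt) : List (List BInt) × BInt := (tab N (co1 p q one), b)

/-- `Y p q + z Y p' q' = 0` -/
def eq2 (N p q p' q' : ℕ) (z : BInt) : List (List BInt) × BInt :=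
  (tab N (co2 p q one p' q' z), zer)

/-- `Y p q - Y p' q' + z Y p'' q'' = 0` -/
def eq3 (N p q p' q' p'' q'' : ℕ) (z : BInt) : List (List BInt) × BInt :=
  (tab N (co3 p q one p' q' mone p'' q'' z), zer)

/-- the row of a value -/
def tI (c : ℕ) : ℕ := 4 * c + 1
/-- auxiliary row -/
def uI (c : ℕ) : ℕ := 4 * c + 2
/-- auxiliary row -/
def aI (c : ℕ) : ℕ := 4 * c + 3
/-- auxiliary row -/
def bI (c : ℕ) : ℕ := 4 * c + 4

/-- The equations for a gate with the operation `op`, operands in the rows `i`, `j`, value in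
the row `t`, auxiliary rows `u`, `a`, `b`. -/
def gateL (N op i j t u a b : ℕ) (z : BInt) : List (List (List BInt) × BInt) :=
  if op = 0 then [eq1 N 0 t z, eq2 N t t 0 t (bneg z)]
  else if op = 1 then [eq3 N 0 t 0 i j 0 mone, eq3 N t t i t t j mone]
  else if op = 2 then [eq3 N 0 t 0 i j 0 one, eq3 N t t i t t j one]
  else if op = 3 then [eq2 N 0 t i j mone, eq2 N 0 u j t mone, eq2 N t t i u mone]
  else if op = 4 then [eq2 N j t 0 i mone, eq2 N 0 u t t mone, eq2 N j u i t mone,
    eq1 N a b one, eq2 N b b j j mone]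
  else if op = 5 then [eq2 N 0 i i t mone, eq2 N t t 0 t mone, eq2 N b b i i mone,
    eq2 N a b 0 t mone]
  else [eq2 N t t 0 i mone, eq2 N a a 0 t mone, eq2 N a b 0 i mone, eq2 N b b i t mone]

/-- The equations for the gate number `k`. -/
def gateE (N k : ℕ) (g : Gate) : List (List (List BInt) × BInt) :=
  gateL N g.1 (tI (idx k g.2.1)) (tI (idx k g.2.2.1)) (tI (k + 1)) (uI (k + 1)) (aI (k + 1))
    (bI (k + 1)) g.2.2.2

/-- a default gate -/
def g0 : Gate := (0, 0, 0, zer)

/-- the size of the system -/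
def sz (P : List Gate) : ℕ := 4 * P.length + 5

/-- The semidefinite system for the program `P`. -/
def sys (P : List Gate) : SDP :=
  (sz P, [eq1 (sz P) 0 0 one, eq1 (sz P) 0 1 one, eq1 (sz P) 1 1 one,
      eq2 (sz P) 2 2 0 (tI P.length) mone] ++
    (List.range P.length).flatMap fun k => gateE (sz P) k ((P[k]?).getD g0))

/-! ### The meaning of the equations -/

lemma ival_one : ival one = 1 := by simp [one, ival, bval]

lemma ival_mone : ival mone = -1 := by simp [mone, ival, bval]

lemma ival_zer : ival zer = 0 := by simp [zer, ival, bval]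

lemma ival_nil : ival (true, []) = 0 := by simp [ival, bval]

lemma entry_tab (N : ℕ) (c : ℕ → ℕ → BInt) (i j : Fin N) : entry (tab N c) i j = c i j := by
  simp [entry, tab]

/-- The value of the entry. -/
lemma sum_co1 (N p q : ℕ) (z : BInt) (hp : p < N) (hq : q < N) (y : ℕ → ℕ → ℝ) :
    ∑ i : Fin N, ∑ j : Fin N, (ival (co1 p q z i j) : ℝ) * y i j = ival z * y p q := by
  rw [Finset.sum_eq_single ⟨p, hp⟩]
  · rw [Finset.sum_eq_single ⟨q, hq⟩]
    · simp [co1]
    · intro j _ hj
      rw [co1, if_neg, ival_nil, Int.cast_zero, zero_mul]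
      rintro ⟨-, h⟩
      exact hj (Fin.ext h)
    · intro h; exact absurd (Finset.mem_univ _) h
  · intro i _ hi
    refine Finset.sum_eq_zero fun j _ => ?_
    have : ¬ ((i : ℕ) = p ∧ (j : ℕ) = q) := fun h => hi (Fin.ext h.1)
    rw [co1, if_neg this, ival_nil, Int.cast_zero, zero_mul]
  · intro h; exact absurd (Finset.mem_univ _) h

lemma ival_co2 {p q p' q' : ℕ} {z z' : BInt} (h : ¬ (p = p' ∧ q = q')) (i j : ℕ) :
    (ival (co2 p q z p' q' z' i j) : ℝ) = ival (co1 p q z i j) + ival (co1 p' q' z' i j) := by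
  unfold co2
  by_cases h1 : i = p ∧ j = q
  · have h2 : ¬ (i = p' ∧ j = q') := by
      rintro ⟨h3, h4⟩
      exact h ⟨h1.1 ▸ h3, h1.2 ▸ h4⟩
    rw [if_pos h1, co1, if_pos h1, co1, if_neg h2, ival_nil, Int.cast_zero, add_zero]
  · have h3 : ival (co1 p q z i j) = 0 := by
      rw [co1, if_neg h1, ival_nil]
    rw [if_neg h1, h3, Int.cast_zero, zero_add]

lemma ival_co3 {p q p' q' p'' q'' : ℕ} {z z' z'' : BInt} (h : ¬ (p = p' ∧ q = q'))
    (h' : ¬ (p = p'' ∧ q = q'')) (i j : ℕ) :
    (ival (co3 p q z p' q' z' p'' q'' z'' i j) : ℝ) =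
      ival (co1 p q z i j) + ival (co2 p' q' z' p'' q'' z'' i j) := by
  unfold co3
  by_cases h1 : i = p ∧ j = q
  · have h2 : ¬ (i = p' ∧ j = q') := by
      rintro ⟨h3, h4⟩
      exact h ⟨h1.1 ▸ h3, h1.2 ▸ h4⟩
    have h3 : ¬ (i = p'' ∧ j = q'') := by
      rintro ⟨h3, h4⟩
      exact h' ⟨h1.1 ▸ h3, h1.2 ▸ h4⟩
    have h4 : ival (co2 p' q' z' p'' q'' z'' i j) = 0 := by
      rw [co2, if_neg h2, co1, if_neg h3, ival_nil]
    rw [if_pos h1, h4, co1, if_pos h1, Int.cast_zero, add_zero]
  · have h3 : ival (co1 p q z i j) = 0 := by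
      rw [co1, if_neg h1, ival_nil]
    rw [if_neg h1, h3, Int.cast_zero, zero_add]

/-- The equation `a` holds for the numbers `y`. -/
def Holds (N : ℕ) (y : ℕ → ℕ → ℝ) (a : List (List BInt) × BInt) : Prop :=
  ∑ i : Fin N, ∑ j : Fin N, (ival (entry a.1 i j) : ℝ) * y i j = ival a.2

lemma holds_eq1 {N p q : ℕ} {b : BInt} (hp : p < N) (hq : q < N) (y : ℕ → ℕ → ℝ) :
    Holds N y (eq1 N p q b) ↔ y p q = ival b := by
  unfold Holds eq1
  simp only [entry_tab]
  rw [sum_co1 N p q one hp hq y, ival_one, Int.cast_one, one_mul]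

lemma holds_eq2 {N p q p' q' : ℕ} {z : BInt} (hp : p < N) (hq : q < N) (hp' : p' < N)
    (hq' : q' < N) (h : ¬ (p = p' ∧ q = q')) (y : ℕ → ℕ → ℝ) :
    Holds N y (eq2 N p q p' q' z) ↔ y p q + ival z * y p' q' = 0 := by
  unfold Holds eq2
  simp only [entry_tab, ival_co2 h, add_mul, Finset.sum_add_distrib]
  rw [sum_co1 N p q one hp hq y, sum_co1 N p' q' z hp' hq' y, ival_one, Int.cast_one, one_mul,
    ival_zer, Int.cast_zero]

lemma holds_eq3 {N p q p' q' p'' q'' : ℕ} {z : BInt} (hp : p < N) (hq : q < N) (hp' : p' < N)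
    (hq' : q' < N) (hp'' : p'' < N) (hq'' : q'' < N) (h : ¬ (p = p' ∧ q = q'))
    (h' : ¬ (p = p'' ∧ q = q'')) (h'' : ¬ (p' = p'' ∧ q' = q'')) (y : ℕ → ℕ → ℝ) :
    Holds N y (eq3 N p q p' q' p'' q'' z) ↔ y p q - y p' q' + ival z * y p'' q'' = 0 := by
  unfold Holds eq3
  simp only [entry_tab, ival_co3 h h', ival_co2 h'', add_mul, Finset.sum_add_distrib]
  rw [sum_co1 N p q one hp hq y, sum_co1 N p' q' mone hp' hq' y, sum_co1 N p'' q'' z hp'' hq'' y,
    ival_one, Int.cast_one, one_mul, ival_zer, Int.cast_zero, ival_mone, Int.cast_neg,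
    Int.cast_one]
  constructor
  · intro h; linarith
  · intro h; linarith

end Pool.Agent.Helper95.Slp
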