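import Pool.Agent.Helper95.Slp.Defs

/-!
# Soundness of the translation of straight-line programs
-/

open scoped InnerProductSpace

namespace Pool.Agent.Helper95.Slp

open Pool.Agent.Helper92.Theta

/-- properties of the inner products of a sequence of vectors whose first member has norm `1` -/
structure Gr (y : ℕ → ℕ → ℝ) : Prop where
  one : y 0 0 = 1
  symm : ∀ p q, y p q = y q p
  nonneg : ∀ p, 0 ≤ y p p
  cs : ∀ p q, y p q * y p q ≤ y p p * y q q
  ker : ∀ t, y t t = y 0 t * y 0 t → ∀ p, y t p = y 0 t * y 0 p

lemma gr_of_vec {H : Type} [NormedAddCommGroup H] [InnerProductSpace ℝ H] (x : ℕ → H)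
    (h : ⟪x 0, x 0⟫_ℝ = 1) : Gr (fun p q => ⟪x p, x q⟫_ℝ) where
  one := h
  symm p q := real_inner_comm _ _
  nonneg p := real_inner_self_nonneg
  cs p q := by
    have h1 := real_inner_mul_inner_self_le (x p) (x q)
    exact h1
  ker t ht p := by
    have h1 : x t - ⟪x 0, x t⟫_ℝ • x 0 = 0 := by
      rw [← inner_self_eq_zero (𝕜 := ℝ), inner_sub_left, inner_sub_right, inner_sub_right,
        inner_smul_left, inner_smul_right, inner_smul_left, inner_smul_right, ht, h,
        real_inner_comm (x 0) (x t)]
      simp only [RCLike.conj_to_real]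
      ring
    rw [sub_eq_zero] at h1
    have h2 : ⟪x t, x p⟫_ℝ = ⟪⟪x 0, x t⟫_ℝ • x 0, x p⟫_ℝ := by rw [← h1]
    rw [inner_smul_left] at h2
    exact h2

lemma sqrt_aux {v y : ℝ} (ha : 0 ≤ y) (h1 : v * v ≤ y * (v * y)) (h2 : y * y ≤ 1 * v) :
    y * y = v := by
  have hv : 0 ≤ v := by nlinarith [mul_nonneg ha ha]
  rcases eq_or_lt_of_le hv with h | h
  · nlinarith [mul_nonneg ha ha]
  · have : v ≤ y * y := by
      have h3 : v * v ≤ v * (y * y) := by linarith
      exact le_of_mul_le_mul_left h3 h
    linarith

theorem gate_sound {N k : ℕ} (g : Gate) {y : ℕ → ℕ → ℝ} (hG : Gr y) (hN : bI (k + 1) < N)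
    {vi vj : ℝ} (hi : ∀ p, y (tI (idx k g.2.1)) p = vi * y 0 p)
    (hj : ∀ p, y (tI (idx k g.2.2.1)) p = vj * y 0 p)
    (h : ∀ a ∈ gateE N k g, Holds N y a) :
    Res g.1 (ival g.2.2.2) vi vj (y 0 (tI (k + 1))) ∧
      y (tI (k + 1)) (tI (k + 1)) = y 0 (tI (k + 1)) * y 0 (tI (k + 1)) := by
  obtain ⟨op, i, j, z⟩ := g
  simp only at hi hj
  have hik : idx k i ≤ k := by unfold idx; split_ifs <;> omega
  have hjk : idx k j ≤ k := by unfold idx; split_ifs <;> omega
  unfold gateE at h
  simp only at h
  unfold bI at hN
  generalize hI : tI (idx k i) = I at *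
  generalize hJ : tI (idx k j) = J at *
  generalize hT : tI (k + 1) = T at *
  generalize hU : uI (k + 1) = U at *
  generalize hA : aI (k + 1) = A at *
  generalize hB : bI (k + 1) = B at *
  unfold tI at hI hJ hT
  unfold uI at hU
  unfold aI at hA
  unfold bI at hB
  have hi0 : y I 0 = vi := by rw [hi 0, hG.one, mul_one]
  have hj0 : y J 0 = vj := by rw [hj 0, hG.one, mul_one]
  have hI0 : y 0 I = vi := by rw [hG.symm, hi0]
  have hJ0 : y 0 J = vj := by rw [hG.symm, hj0]
  match op, h with
  | 0, h =>
    simp only [gateL, if_true, List.forall_mem_cons, List.not_mem_nil, false_implies,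
      implies_true, and_true] at h
    rw [holds_eq1 (by omega) (by omega), holds_eq2 (by omega) (by omega) (by omega) (by omega)
      (by omega), ival_bneg] at h
    obtain ⟨h1, h2⟩ := h
    refine ⟨h1, ?_⟩
    rw [h1] at h2 ⊢
    linarith
  | 1, h =>
    simp only [gateL, one_ne_zero, if_true, if_false, List.forall_mem_cons, List.not_mem_nil,
      false_implies, implies_true, and_true] at h
    rw [holds_eq3 (by omega) (by omega) (by omega) (by omega) (by omega) (by omega) (by omega)
      (by omega) (by omega), holds_eq3 (by omega) (by omega) (by omega) (by omega) (by omega)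
      (by omega) (by omega) (by omega) (by omega), ival_mone, hI0, hj0, hi, hG.symm T J, hj] at h
    obtain ⟨h1, h2⟩ := h
    push_cast at h1 h2
    have h3 : y 0 T = vi + vj := by linarith
    refine ⟨h3, ?_⟩
    rw [h3] at h2 ⊢
    linarith
  | 2, h =>
    simp only [gateL, OfNat.ofNat_ne_zero, OfNat.ofNat_ne_one, if_true, if_false,
      List.forall_mem_cons, List.not_mem_nil, false_implies, implies_true, and_true] at h
    rw [holds_eq3 (by omega) (by omega) (by omega) (by omega) (by omega) (by omega) (by omega)
      (by omega) (by omega), holds_eq3 (by omega) (by omega) (by omega) (by omega) (by omega)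
      (by omega) (by omega) (by omega) (by omega), ival_one, hI0, hj0, hi, hG.symm T J, hj] at h
    obtain ⟨h1, h2⟩ := h
    push_cast at h1 h2
    have h3 : y 0 T = vi - vj := by linarith
    refine ⟨h3, ?_⟩
    rw [h3] at h2 ⊢
    linarith
  | 3, h =>
    simp only [gateL, OfNat.ofNat_ne_zero, OfNat.ofNat_ne_one, if_true, if_false,
      List.forall_mem_cons, List.not_mem_nil, false_implies, implies_true, and_true,
      Nat.reduceEqDiff] at h
    rw [holds_eq2 (by omega) (by omega) (by omega) (by omega) (by omega),
      holds_eq2 (by omega) (by omega) (by omega) (by omega) (by omega),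
      holds_eq2 (by omega) (by omega) (by omega) (by omega) (by omega), ival_mone, hi, hj, hi,
      hJ0] at h
    obtain ⟨h1, h2, h3⟩ := h
    push_cast at h1 h2 h3
    have h4 : y 0 T = vi * vj := by linarith
    refine ⟨h4, ?_⟩
    have h5 : y 0 U = vj * y 0 T := by linarith
    rw [h5] at h3
    have h6 : y T T = vi * vj * y 0 T := by linarith
    rw [h6, ← h4]
  | 4, h =>
    simp only [gateL, OfNat.ofNat_ne_zero, OfNat.ofNat_ne_one, if_true, if_false,
      List.forall_mem_cons, List.not_mem_nil, false_implies, implies_true, and_true,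
      Nat.reduceEqDiff] at h
    rw [holds_eq2 (by omega) (by omega) (by omega) (by omega) (by omega),
      holds_eq2 (by omega) (by omega) (by omega) (by omega) (by omega),
      holds_eq2 (by omega) (by omega) (by omega) (by omega) (by omega),
      holds_eq1 (by omega) (by omega),
      holds_eq2 (by omega) (by omega) (by omega) (by omega) (by omega), ival_mone, ival_one,
      hI0, hj, hj, hi, hj, hJ0] at h
    obtain ⟨h1, h2, h3, h4, h5⟩ := h
    push_cast at h1 h2 h3 h4 h5
    have h6 := hG.cs A B
    have h7 : y B B = vj * vj := by linarith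
    rw [h4, h7] at h6
    have h8 : vj ≠ 0 := by
      rintro rfl
      norm_num at h6
    have h9 : vj * y 0 T = vi := by linarith
    have h10 : y 0 T = vi / vj := by
      rw [eq_div_iff h8]
      linarith
    refine ⟨⟨h8, h10⟩, ?_⟩
    have h11 : vj * y T T = vj * (y 0 T * y 0 T) := by
      have h12 : y 0 U = y T T := by linarith
      rw [h12] at h3
      have h13 : vj * y T T = vi * y 0 T := by linarith
      rw [h13, ← h9]
      ring
    exact mul_left_cancel₀ h8 h11
  | 5, h =>
    simp only [gateL, OfNat.ofNat_ne_zero, OfNat.ofNat_ne_one, if_true, if_false,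
      List.forall_mem_cons, List.not_mem_nil, false_implies, implies_true, and_true,
      Nat.reduceEqDiff] at h
    rw [holds_eq2 (by omega) (by omega) (by omega) (by omega) (by omega),
      holds_eq2 (by omega) (by omega) (by omega) (by omega) (by omega),
      holds_eq2 (by omega) (by omega) (by omega) (by omega) (by omega),
      holds_eq2 (by omega) (by omega) (by omega) (by omega) (by omega), ival_mone, hI0, hi, hi,
      hI0] at h
    obtain ⟨h1, h2, h3, h4⟩ := h
    push_cast at h1 h2 h3 h4
    have h5 := hG.cs A B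
    have h6 : y A B = y 0 T := by linarith
    have h7 : y B B = vi * vi := by linarith
    have h8 : y T T = y 0 T := by linarith
    rw [h6, h7] at h5
    have h9 : vi = 0 → y 0 T = 0 := by
      rintro rfl
      have : y 0 T * y 0 T ≤ 0 := by linarith
      exact mul_self_eq_zero.1 (le_antisymm this (mul_self_nonneg _))
    have h10 : vi ≠ 0 → y 0 T = 1 := by
      intro hv
      have : vi * y 0 T = vi * 1 := by linarith
      exact mul_left_cancel₀ hv this
    refine ⟨⟨h9, h10⟩, ?_⟩
    rw [h8]
    by_cases hv : vi = 0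
    · rw [h9 hv, mul_zero]
    · rw [h10 hv, mul_one]
  | n + 6, h =>
    have e0 : ¬ (n + 6 = 0) := by omega
    have e1 : ¬ (n + 6 = 1) := by omega
    have e2 : ¬ (n + 6 = 2) := by omega
    have e3 : ¬ (n + 6 = 3) := by omega
    have e4 : ¬ (n + 6 = 4) := by omega
    have e5 : ¬ (n + 6 = 5) := by omega
    simp only [gateL, e0, e1, e2, e3, e4, e5, if_false, List.forall_mem_cons, List.not_mem_nil,
      false_implies, implies_true, and_true] at h
    rw [holds_eq2 (by omega) (by omega) (by omega) (by omega) (by omega),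
      holds_eq2 (by omega) (by omega) (by omega) (by omega) (by omega),
      holds_eq2 (by omega) (by omega) (by omega) (by omega) (by omega),
      holds_eq2 (by omega) (by omega) (by omega) (by omega) (by omega), ival_mone, hI0, hi] at h
    obtain ⟨h1, h2, h3, h4⟩ := h
    push_cast at h1 h2 h3 h4
    have k1 : y T T = vi := by linarith
    have k2 : y A A = y 0 T := by linarith
    have k3 : y A B = vi := by linarith
    have k4 : y B B = vi * y 0 T := by linarith
    have c1 := hG.cs A B
    have c2 := hG.cs 0 T
    have c3 := hG.nonneg A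
    rw [k2] at c3
    rw [k2, k3, k4] at c1
    rw [hG.one, k1] at c2
    have c4 : y 0 T * y 0 T = vi := sqrt_aux c3 c1 c2
    exact ⟨⟨c3, c4⟩, by rw [k1, c4]⟩

/-- **Soundness.** -/
theorem sound (P : List Gate) (h : sys P ∈ SDPFeas) : P ∈ RealSLP := by
  obtain ⟨X, hX, hS⟩ := h
  obtain ⟨m, x, hx⟩ := exists_vectors hX
  let xx : ℕ → EuclideanSpace ℝ (Fin m) := fun p => if h : p < sz P then x ⟨p, h⟩ else 0
  have hxx : ∀ i j : Fin (sz P), ⟪xx i, xx j⟫_ℝ = X i j := by
    intro i j
    simp only [xx]
    rw [dif_pos i.2, dif_pos j.2]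
    exact hx i j
  let y : ℕ → ℕ → ℝ := fun p q => ⟪xx p, xx q⟫_ℝ
  have hH : ∀ a ∈ (sys P).2, Holds (sz P) y a := by
    intro a ha
    have h1 := hS a ha
    unfold Holds
    rw [← h1]
    exact Finset.sum_congr rfl fun i _ => Finset.sum_congr rfl fun j _ => by
      change _ * ⟪xx i, xx j⟫_ℝ = _
      rw [hxx]
  have hbase : ∀ a ∈ [eq1 (sz P) 0 0 one, eq1 (sz P) 0 1 one, eq1 (sz P) 1 1 one,
      eq2 (sz P) 2 2 0 (tI P.length) mone], Holds (sz P) y a := fun a ha =>
    hH a (List.mem_append_left _ ha)
  simp only [List.forall_mem_cons, List.not_mem_nil, false_implies, implies_true, and_true]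
    at hbase
  obtain ⟨b1, b2, b3, b4⟩ := hbase
  have hs : sz P = 4 * P.length + 5 := rfl
  rw [holds_eq1 (by omega) (by omega), ival_one, Int.cast_one] at b1 b2 b3
  rw [holds_eq2 (by omega) (by omega) (by omega) (by unfold tI; omega) (by omega), ival_mone]
    at b4
  have hG : Gr y := gr_of_vec xx b1
  have key : ∀ c, c ≤ P.length → y (tI c) (tI c) = y 0 (tI c) * y 0 (tI c) ∧
      ∀ k g, c = k + 1 → P[k]? = some g → Res g.1 (ival g.2.2.2) (y 0 (tI (idx k g.2.1)))
        (y 0 (tI (idx k g.2.2.1))) (y 0 (tI (k + 1))) := by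
    intro c
    induction c using Nat.strong_induction_on with
    | _ c ih =>
      intro hc
      rcases c with _ | k
      · refine ⟨?_, fun k g h => absurd h (by omega)⟩
        change y 1 1 = y 0 1 * y 0 1
        rw [b3, b2, mul_one]
      · have hk : k < P.length := by omega
        have hg : P[k]? = some P[k] := List.getElem?_eq_getElem hk
        have hik : idx k P[k].2.1 ≤ k := by unfold idx; split_ifs <;> omega
        have hjk : idx k P[k].2.2.1 ≤ k := by unfold idx; split_ifs <;> omega
        have h1 := gate_sound (N := sz P) (k := k) P[k] hG (by unfold bI; omega)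
          (hG.ker _ (ih _ (by omega) (by omega)).1) (hG.ker _ (ih _ (by omega) (by omega)).1)
          (fun a ha => hH a (List.mem_append_right _ (List.mem_flatMap.2
            ⟨k, List.mem_range.2 hk, by rw [hg, Option.getD_some]; exact ha⟩)))
        refine ⟨h1.2, fun k' g hk' hg' => ?_⟩
        obtain rfl : k = k' := by omega
        rw [hg, Option.some.injEq] at hg'
        subst hg'
        exact h1.1
  refine ⟨fun c => y 0 (tI c), ⟨b2, fun k g hg => ?_⟩, ?_⟩
  · have hk : k < P.length := (List.getElem?_eq_some_iff.1 hg).1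
    exact (key (k + 1) (by omega)).2 k g rfl hg
  · have h2 := hG.nonneg 2
    push_cast at b4
    change 0 ≤ y 0 (tI P.length)
    linarith

end Pool.Agent.Helper95.Slp
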